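import Pool.Agent.Lib.BMM.Mem

/-!
# Integer checker for the member certificates (PROJECT BOHR, package BMM)

A piece `P` covers `l = (L0 + L1 t) / 2 ^ 20`, `|t| ≤ 1`, with the radius
`(r0 + r1 t) / 2 ^ 26`, the member `a = al / 2 ^ 10`, `η = (u + i v) / 2 ^ 24` and the directions
`s_n = (a_n + i b_n) / 2 ^ 20`. All quantities are polynomials in `t` with integer coefficients.
-/

set_option autoImplicit false

open Complex Set
open scoped ComplexConjugate
open Pool.Agent.P187f6b Pool.Agent.P187s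

namespace Pool.Agent.BMM

/-- sum of two polynomials -/
def padd : List ℤ → List ℤ → List ℤ
  | [], q => q
  | a :: p, [] => a :: p
  | a :: p, b :: q => (a + b) :: padd p q

/-- scalar multiple of a polynomial -/
def psm (c : ℤ) : List ℤ → List ℤ
  | [] => []
  | a :: p => (c * a) :: psm c p

/-- product with `x + y t` -/
def pl (x y : ℤ) (prev : ℤ) : List ℤ → List ℤ
  | [] => [y * prev]
  | c :: p => (x * c + y * prev) :: pl x y c p

/-- sum of the absolute values of the coefficients -/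
def sab : List ℤ → ℤ
  | [] => 0
  | c :: p => Int.ofNat c.natAbs + sab p

/-- lower bound of a polynomial on `[-1, 1]` -/
def lob : List ℤ → ℤ
  | [] => 0
  | c :: p => c - sab p

/-- data of a piece -/
structure Pc where
  L0 : ℤ
  L1 : ℤ
  u : ℤ
  v : ℤ
  al : ℤ
  r0 : ℤ
  r1 : ℤ
  s : List (ℤ × ℤ)

namespace Pc

/-- real part of the product with `A` -/
def mAx (P : Pc) (X Y : List ℤ) : List ℤ :=
  padd (pl (P.al * (17592186044416 - P.L0 * P.u)) (-(P.al * P.L1 * P.u)) 0 X)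
    (pl (P.al * P.L0 * P.v) (P.al * P.L1 * P.v) 0 Y)

/-- imaginary part of the product with `A` -/
def mAy (P : Pc) (X Y : List ℤ) : List ℤ :=
  padd (pl (P.al * (17592186044416 - P.L0 * P.u)) (-(P.al * P.L1 * P.u)) 0 Y)
    (pl (-(P.al * P.L0 * P.v)) (-(P.al * P.L1 * P.v)) 0 X)

/-- real part of the product with `B` -/
def mBx (P : Pc) (X Y : List ℤ) : List ℤ :=
  pl (P.L0 * 18446744073709551616) (P.L1 * 18446744073709551616) 0
    (padd (psm P.u X) (psm (-P.v) Y))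

/-- imaginary part of the product with `B` -/
def mBy (P : Pc) (X Y : List ℤ) : List ℤ :=
  pl (P.L0 * 18446744073709551616) (P.L1 * 18446744073709551616) 0
    (padd (psm P.u Y) (psm P.v X))

/-- the recurrence and the Horner scheme -/
def run (P : Pc) : List (ℤ × ℤ) → List ℤ → List ℤ → List ℤ → List ℤ → List ℤ × ℤ
  | [], _, _, _, _ => ([], 1)
  | (a, b) :: ss, X0, Y0, X1, Y1 =>
    let q := run P ss X1 Y1 (padd (P.mAx X1 Y1) (P.mBx X0 Y0)) (padd (P.mAy X1 Y1) (P.mBy X0 Y0))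
    (padd (psm q.2 (padd (psm a X0) (psm b Y0))) (pl P.r0 P.r1 0 q.1),
      q.2 * 1208925819614629174706176)

/-- all directions have modulus at most one -/
def dirs : List (ℤ × ℤ) → Bool
  | [] => true
  | (a, b) :: ss => decide (a * a + b * b ≤ 1099511627776) && dirs ss

/-- the check -/
def chk (P : Pc) : Bool :=
  decide (0 ≤ P.L1) && decide (P.L1 ≤ P.L0) && decide (P.L0 + P.L1 < 1048576) &&
  decide (P.u * P.u + P.v * P.v ≤ 281474976710656) && decide (0 ≤ P.al) &&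
  decide (P.al < 1024) && decide (0 < P.r0 - P.r1) && decide (0 < P.r0 + P.r1) &&
  decide (P.r0 - P.r1 < 67108864) && decide (P.r0 + P.r1 < 67108864) && dirs P.s &&
  (let X0 := [P.al * P.u]
   let Y0 := [P.al * P.v]
   let X1 := padd (P.mAx X0 Y0) [-(P.u * 18446744073709551616)]
   let Y1 := padd (P.mAy X0 Y0) [-(P.v * 18446744073709551616)]
   let q := P.run P.s X0 Y0 X1 Y1
   decide (1267650600228229401496703205376 * q.2 <
     lob (pl (1048576 + P.L0) P.L1 0 (pl P.r0 P.r1 0 q.1)) * 1208925819614629174706176))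

end Pc

namespace ChkAux

/-- evaluation -/
noncomputable def ev : List ℤ → ℝ → ℝ
  | [], _ => 0
  | c :: p, t => c + t * ev p t

lemma ev_padd (p q : List ℤ) (t : ℝ) : ev (padd p q) t = ev p t + ev q t := by
  induction p generalizing q with
  | nil => simp [padd, ev]
  | cons a p ih =>
    cases q with
    | nil => simp [padd, ev]
    | cons b q =>
      simp only [padd, ev, ih]
      push_cast
      ring

lemma ev_psm (c : ℤ) (p : List ℤ) (t : ℝ) : ev (psm c p) t = c * ev p t := by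
  induction p with
  | nil => simp [psm, ev]
  | cons a p ih =>
    simp only [psm, ev, ih]
    push_cast
    ring

lemma ev_pl' (x y prev : ℤ) (p : List ℤ) (t : ℝ) :
    ev (pl x y prev p) t = y * prev + (x + y * t) * ev p t := by
  induction p generalizing prev with
  | nil => simp [pl, ev]
  | cons a p ih =>
    simp only [pl, ev, ih]
    push_cast
    ring

lemma ev_pl (x y : ℤ) (p : List ℤ) (t : ℝ) : ev (pl x y 0 p) t = (x + y * t) * ev p t := by
  rw [ev_pl']
  simp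

lemma ofNat_natAbs (c : ℤ) : ((Int.ofNat c.natAbs : ℤ) : ℝ) = |(c : ℝ)| := by
  have : Int.ofNat c.natAbs = |c| := by
    rw [Int.abs_eq_natAbs]; rfl
  rw [this]
  push_cast
  rfl

lemma abs_ev_le (p : List ℤ) {t : ℝ} (ht : |t| ≤ 1) : |ev p t| ≤ sab p := by
  induction p with
  | nil => simp [ev, sab]
  | cons a p ih =>
    rw [ev, sab, Int.cast_add, ofNat_natAbs]
    refine (abs_add_le _ _).trans (add_le_add le_rfl ?_)
    rw [abs_mul]
    calc |t| * |ev p t| ≤ 1 * |ev p t| := mul_le_mul_of_nonneg_right ht (abs_nonneg _)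
      _ ≤ _ := by rw [one_mul]; exact ih

lemma lob_le (p : List ℤ) {t : ℝ} (ht : |t| ≤ 1) : (lob p : ℝ) ≤ ev p t := by
  cases p with
  | nil => simp [lob, ev]
  | cons a p =>
    rw [lob, ev]
    push_cast
    have h1 := abs_ev_le p ht
    have h2 : |t * ev p t| ≤ |ev p t| := by
      rw [abs_mul]
      calc |t| * |ev p t| ≤ 1 * |ev p t| := mul_le_mul_of_nonneg_right ht (abs_nonneg _)
        _ = _ := one_mul _
    have h3 := neg_abs_le (t * ev p t)
    linarith

variable (P : Pc) (t : ℝ)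

/-- the value of `l` -/
noncomputable def lv (P : Pc) (t : ℝ) : ℝ := (P.L0 + P.L1 * t) / 2 ^ 20

/-- the radius -/
noncomputable def rv (P : Pc) (t : ℝ) : ℝ := (P.r0 + P.r1 * t) / 2 ^ 26

/-- the parameter `a` -/
noncomputable def av (P : Pc) : ℝ := P.al / 2 ^ 10

/-- the parameter `η` -/
noncomputable def ηv (P : Pc) : ℂ := ⟨P.u / 2 ^ 24, P.v / 2 ^ 24⟩

/-- a direction -/
noncomputable def sv (s : ℤ × ℤ) : ℂ := ⟨s.1 / 2 ^ 20, s.2 / 2 ^ 20⟩

lemma stp_re (A l : ℝ) (e x y : ℂ) : ((A : ℂ) * (1 - l * e) * y + l * e * x).re =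
    A * (1 - l * e.re) * y.re + A * l * e.im * y.im + l * (e.re * x.re - e.im * x.im) := by
  simp [Complex.mul_re, Complex.mul_im]
  ring

lemma stp_im (A l : ℝ) (e x y : ℂ) : ((A : ℂ) * (1 - l * e) * y + l * e * x).im =
    A * (1 - l * e.re) * y.im - A * l * e.im * y.re + l * (e.re * x.im + e.im * x.re) := by
  simp [Complex.mul_re, Complex.mul_im]
  ring

lemma ini_re (A l : ℝ) (e : ℂ) : ((A : ℂ) * (1 - l * e) * (e * A) - e).re =
    A * (1 - l * e.re) * (e.re * A) + A * l * e.im * (e.im * A) - e.re := by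
  simp only [Complex.sub_re, Complex.mul_re, Complex.mul_im, Complex.ofReal_re,
    Complex.ofReal_im, Complex.one_re, Complex.one_im, Complex.sub_im]
  ring

lemma ini_im (A l : ℝ) (e : ℂ) : ((A : ℂ) * (1 - l * e) * (e * A) - e).im =
    A * (1 - l * e.re) * (e.im * A) - A * l * e.im * (e.re * A) - e.im := by
  simp only [Complex.sub_im, Complex.mul_re, Complex.mul_im, Complex.ofReal_re,
    Complex.ofReal_im, Complex.one_re, Complex.one_im, Complex.sub_re]
  ring

lemma run_pos (ss : List (ℤ × ℤ)) (X0 Y0 X1 Y1 : List ℤ) : 0 < (P.run ss X0 Y0 X1 Y1).2 := by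
  induction ss generalizing X0 Y0 X1 Y1 with
  | nil => simp [Pc.run]
  | cons s ss ih =>
    obtain ⟨a, b⟩ := s
    simp only [Pc.run]
    exact mul_pos (ih _ _ _ _) (by norm_num)

lemma run_eq (ss : List (ℤ × ℤ)) (X0 Y0 X1 Y1 : List ℤ) (x y : ℂ) (S : ℝ)
    (h1 : ev X0 t = S * x.re) (h2 : ev Y0 t = S * x.im) (h3 : ev X1 t = S * 2 ^ 54 * y.re)
    (h4 : ev Y1 t = S * 2 ^ 54 * y.im) :
    ev (P.run ss X0 Y0 X1 Y1).1 t * 2 ^ 80 = S * 2 ^ 20 * (P.run ss X0 Y0 X1 Y1).2 *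
      VV (av P * (1 - lv P t * ηv P)) (lv P t * ηv P) (rv P t) (ss.map sv) x y := by
  induction ss generalizing X0 Y0 X1 Y1 x y S with
  | nil => simp [Pc.run, VV, ev]
  | cons s ss ih =>
    obtain ⟨a, b⟩ := s
    simp only [Pc.run, VV, List.map_cons]
    have ih' := ih X1 Y1 (padd (P.mAx X1 Y1) (P.mBx X0 Y0)) (padd (P.mAy X1 Y1) (P.mBy X0 Y0)) y
      (av P * (1 - lv P t * ηv P) * y + lv P t * ηv P * x) (S * 2 ^ 54) h3 h4
      (by
        rw [stp_re]
        simp only [Pc.mAx, Pc.mBx, ev_padd, ev_pl, ev_psm, h1, h2, h3, h4, av, lv, ηv]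
        push_cast
        ring)
      (by
        rw [stp_im]
        simp only [Pc.mAy, Pc.mBy, ev_padd, ev_pl, ev_psm, h1, h2, h3, h4, av, lv, ηv]
        push_cast
        ring)
    set q := P.run ss X1 Y1 (padd (P.mAx X1 Y1) (P.mBx X0 Y0))
      (padd (P.mAy X1 Y1) (P.mBy X0 Y0)) with hq
    set V := VV (av P * (1 - lv P t * ηv P)) (lv P t * ηv P) (rv P t) (ss.map sv) y
      (av P * (1 - lv P t * ηv P) * y + lv P t * ηv P * x) with hV
    rw [ev_padd, ev_psm, ev_padd, ev_psm, ev_psm, ev_pl, h1, h2]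
    have e1 : (conj (sv (a, b)) * x).re = (a * x.re + b * x.im) / 2 ^ 20 := by
      simp [sv, Complex.mul_re]
      ring
    have e2 : ((P.r0 : ℝ) + P.r1 * t) = rv P t * 2 ^ 26 := by
      rw [rv]; field_simp
    rw [e1, e2]
    push_cast
    linear_combination (rv P t * 2 ^ 26) * ih'

lemma dirs_mem {ss : List (ℤ × ℤ)} (h : Pc.dirs ss = true) : ∀ c ∈ ss.map sv, ‖c‖ ≤ 1 := by
  induction ss with
  | nil => simp
  | cons s ss ih =>
    obtain ⟨a, b⟩ := s
    simp only [Pc.dirs, Bool.and_eq_true, decide_eq_true_eq] at h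
    intro c hc
    rw [List.map_cons, List.mem_cons] at hc
    rcases hc with hc | hc
    · rw [hc, ← sq_le_one_iff₀ (norm_nonneg _), ← Complex.normSq_eq_norm_sq,
        Complex.normSq_apply]
      have h1 : ((a * a + b * b : ℤ) : ℝ) ≤ 1099511627776 := by exact_mod_cast h.1
      push_cast at h1
      show (a : ℝ) / 2 ^ 20 * (a / 2 ^ 20) + b / 2 ^ 20 * (b / 2 ^ 20) ≤ 1
      have e : (a : ℝ) / 2 ^ 20 * (a / 2 ^ 20) + b / 2 ^ 20 * (b / 2 ^ 20) =
        (a * a + b * b) / 1099511627776 := by ring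
      rw [e, div_le_one (by norm_num)]
      exact h1
    · exact ih h.2 c hc

end ChkAux

open ChkAux

/-- Soundness of a piece. -/
theorem Pc.sound (P : Pc) (h : P.chk = true) {t : ℝ} (ht : |t| ≤ 1) :
    0 ≤ lv P t ∧ lv P t < 1 ∧ BB (lv P t) ≤ rv P t := by
  simp only [Pc.chk, Bool.and_eq_true, decide_eq_true_eq] at h
  obtain ⟨⟨⟨⟨⟨⟨⟨⟨⟨⟨⟨a1, a2⟩, a3⟩, a4⟩, a5⟩, a6⟩, a7⟩, a8⟩, a9⟩, a10⟩, a11⟩, a12⟩ := h
  have b1 : (0 : ℝ) ≤ P.L1 := by exact_mod_cast a1
  have b2 : (P.L1 : ℝ) ≤ P.L0 := by exact_mod_cast a2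
  have b3 : (P.L0 + P.L1 : ℝ) < 1048576 := by exact_mod_cast a3
  have b4 : (P.u * P.u + P.v * P.v : ℝ) ≤ 281474976710656 := by exact_mod_cast a4
  have b5 : (0 : ℝ) ≤ P.al := by exact_mod_cast a5
  have b6 : (P.al : ℝ) < 1024 := by exact_mod_cast a6
  have b7 : (0 : ℝ) < P.r0 - P.r1 := by exact_mod_cast a7
  have b8 : (0 : ℝ) < P.r0 + P.r1 := by exact_mod_cast a8
  have b9 : (P.r0 - P.r1 : ℝ) < 67108864 := by exact_mod_cast a9
  have b10 : (P.r0 + P.r1 : ℝ) < 67108864 := by exact_mod_cast a10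
  obtain ⟨t1, t2⟩ := abs_le.1 ht
  have hl0 : 0 ≤ lv P t := by
    refine div_nonneg ?_ (by norm_num)
    nlinarith
  have hl1 : lv P t < 1 := by
    rw [lv, div_lt_one (by norm_num)]
    nlinarith
  have hrt : |(P.r1 : ℝ) * t| ≤ |(P.r1 : ℝ)| := by
    rw [abs_mul]
    calc |(P.r1 : ℝ)| * |t| ≤ |(P.r1 : ℝ)| * 1 := mul_le_mul_of_nonneg_left ht (abs_nonneg _)
      _ = _ := mul_one _
  have hr0 : 0 < rv P t := by
    refine div_pos ?_ (by norm_num)
    have h1 : |(P.r1 : ℝ)| < P.r0 := abs_lt.2 ⟨by linarith, by linarith⟩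
    linarith [neg_abs_le ((P.r1 : ℝ) * t)]
  have hr1 : rv P t < 1 := by
    rw [rv, div_lt_one (by norm_num)]
    have h1 : |(P.r1 : ℝ)| < 2 ^ 26 - P.r0 :=
      abs_lt.2 ⟨by norm_num; linarith, by norm_num; linarith⟩
    linarith [le_abs_self ((P.r1 : ℝ) * t)]
  have ha0 : 0 ≤ av P := div_nonneg b5 (by norm_num)
  have ha1 : av P < 1 := by
    rw [av, div_lt_one (by norm_num)]
    linarith
  have hη : ‖ηv P‖ ≤ 1 := by
    rw [← sq_le_one_iff₀ (norm_nonneg _), ← Complex.normSq_eq_norm_sq, Complex.normSq_apply]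
    show (P.u : ℝ) / 2 ^ 24 * (P.u / 2 ^ 24) + P.v / 2 ^ 24 * (P.v / 2 ^ 24) ≤ 1
    have e : (P.u : ℝ) / 2 ^ 24 * (P.u / 2 ^ 24) + P.v / 2 ^ 24 * (P.v / 2 ^ 24) =
      (P.u * P.u + P.v * P.v) / 281474976710656 := by ring
    rw [e, div_le_one (by norm_num)]
    exact b4
  refine ⟨hl0, hl1, BB_le_VV hl0 hl1 hη ha0 ha1 hr0 hr1 (P.s.map sv) (dirs_mem a11) ?_⟩
  have key := run_eq P t P.s [P.al * P.u] [P.al * P.v]
    (padd (P.mAx [P.al * P.u] [P.al * P.v]) [-(P.u * 18446744073709551616)])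
    (padd (P.mAy [P.al * P.u] [P.al * P.v]) [-(P.v * 18446744073709551616)])
    (ηv P * av P) (av P * (1 - lv P t * ηv P) * (ηv P * av P) - ηv P) (2 ^ 34)
    (by rw [Complex.re_mul_ofReal]; simp only [ev, ηv, av]; push_cast; ring)
    (by rw [Complex.im_mul_ofReal]; simp only [ev, ηv, av]; push_cast; ring)
    (by
      rw [ini_re]
      simp only [Pc.mAx, ev_padd, ev_pl, ev, av, lv, ηv]
      push_cast
      ring)
    (by
      rw [ini_im]
      simp only [Pc.mAy, ev_padd, ev_pl, ev, av, lv, ηv]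
      push_cast
      ring)
  have hq := run_pos P P.s [P.al * P.u] [P.al * P.v]
    (padd (P.mAx [P.al * P.u] [P.al * P.v]) [-(P.u * 18446744073709551616)])
    (padd (P.mAy [P.al * P.u] [P.al * P.v]) [-(P.v * 18446744073709551616)])
  set q := P.run P.s [P.al * P.u] [P.al * P.v]
    (padd (P.mAx [P.al * P.u] [P.al * P.v]) [-(P.u * 18446744073709551616)])
    (padd (P.mAy [P.al * P.u] [P.al * P.v]) [-(P.v * 18446744073709551616)])
  set V := VV (av P * (1 - lv P t * ηv P)) (lv P t * ηv P) (rv P t) (P.s.map sv) (ηv P * av P)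
    (av P * (1 - lv P t * ηv P) * (ηv P * av P) - ηv P)
  have h1 : (1267650600228229401496703205376 : ℝ) * q.2 <
      lob (pl (1048576 + P.L0) P.L1 0 (pl P.r0 P.r1 0 q.1)) * 1208925819614629174706176 := by
    exact_mod_cast a12
  have h2 := lob_le (pl (1048576 + P.L0) P.L1 0 (pl P.r0 P.r1 0 q.1)) ht
  rw [ev_pl, ev_pl] at h2
  have hq' : (0 : ℝ) < q.2 := by exact_mod_cast hq
  have e1 : (((1048576 + P.L0 : ℤ) : ℝ) + P.L1 * t) = 2 ^ 20 * (1 + lv P t) := by
    rw [lv]; push_cast; field_simp; ring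
  have e2 : ((P.r0 : ℝ) + P.r1 * t) = 2 ^ 26 * rv P t := by
    rw [rv]; field_simp
  rw [e1, e2] at h2
  have h3 : (1267650600228229401496703205376 : ℝ) * q.2 <
      (2 ^ 20 * (1 + lv P t)) * ((2 ^ 26 * rv P t) * (ev q.1 t * 2 ^ 80)) := by
    have h4 := mul_le_mul_of_nonneg_right h2 (show (0 : ℝ) ≤ 1208925819614629174706176 by norm_num)
    have e3 : 2 ^ 20 * (1 + lv P t) * (2 ^ 26 * rv P t * ev q.1 t) * 1208925819614629174706176 =
      (2 ^ 20 * (1 + lv P t)) * ((2 ^ 26 * rv P t) * (ev q.1 t * 2 ^ 80)) := by ring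
    linarith
  rw [key] at h3
  have h5 : (1267650600228229401496703205376 : ℝ) * q.2 * 1 <
      1267650600228229401496703205376 * q.2 * ((1 + lv P t) * (rv P t * V)) := by
    have e4 : (1267650600228229401496703205376 : ℝ) * q.2 * ((1 + lv P t) * (rv P t * V)) =
      2 ^ 20 * (1 + lv P t) * (2 ^ 26 * rv P t * (2 ^ 34 * 2 ^ 20 * q.2 * V)) := by ring
    rw [e4, mul_one]
    exact h3
  exact lt_of_mul_lt_mul_left h5 (by positivity)

/-! ### slices -/

/-- a slice `n1 / 1024 < l ≤ n2 / 1024` with the radii `M1 / 2 ^ 24`, `M2 / 2 ^ 24` at the ends -/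
structure Sl where
  n1 : ℤ
  n2 : ℤ
  M1 : ℤ
  M2 : ℤ
  ps : List Pc

/-- the affine function of a slice -/
noncomputable def chord (n1 n2 M1 M2 l : ℝ) : ℝ :=
  (M1 + (M2 - M1) * ((1024 * l - n1) / (n2 - n1))) / 2 ^ 24

/-- one comparison of the radii -/
def Sl.cmp (S : Sl) (L r : ℤ) : Bool :=
  decide (r * 1024 * (S.n2 - S.n1) ≤
    4 * (S.M1 * 1024 * (S.n2 - S.n1) + (S.M2 - S.M1) * (L - 1024 * S.n1)))

/-- the check of a list of pieces -/
def Sl.cov (S : Sl) (pos tgt : ℤ) : List Pc → Bool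
  | [] => decide (tgt ≤ pos)
  | P :: ps => decide (P.L0 - P.L1 ≤ pos) && decide (0 < P.L1) && P.chk &&
    S.cmp (P.L0 - P.L1) (P.r0 - P.r1) && S.cmp (P.L0 + P.L1) (P.r0 + P.r1) &&
    S.cov (P.L0 + P.L1) tgt ps

/-- the check of a slice -/
def Sl.chk (S : Sl) : Bool :=
  decide (S.n1 < S.n2) && S.cov (1024 * S.n1) (1024 * S.n2) S.ps

namespace ChkAux

lemma cmp_real {S : Sl} (hn : S.n1 < S.n2) {L r : ℤ} (h : S.cmp L r = true) :
    (r : ℝ) / 2 ^ 26 ≤ chord S.n1 S.n2 S.M1 S.M2 (L / 2 ^ 20) := by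
  simp only [Sl.cmp, decide_eq_true_eq] at h
  have h1 : (r : ℝ) * 1024 * (S.n2 - S.n1) ≤
    4 * (S.M1 * 1024 * (S.n2 - S.n1) + (S.M2 - S.M1) * (L - 1024 * S.n1)) := by exact_mod_cast h
  have hn' : (0 : ℝ) < S.n2 - S.n1 := by
    have : (S.n1 : ℝ) < S.n2 := by exact_mod_cast hn
    linarith
  rw [chord, div_le_div_iff₀ (by norm_num) (by norm_num)]
  have e : (S.M1 + (S.M2 - S.M1) * ((1024 * ((L : ℝ) / 2 ^ 20) - S.n1) / (S.n2 - S.n1))) =
      (4 * (S.M1 * 1024 * (S.n2 - S.n1) + (S.M2 - S.M1) * (L - 1024 * S.n1))) /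
        (4096 * (S.n2 - S.n1)) := by
    field_simp
    ring
  rw [e, div_mul_eq_mul_div, le_div_iff₀ (by positivity)]
  nlinarith

lemma cov_sound {S : Sl} (hn : S.n1 < S.n2) (ps : List Pc) (pos tgt : ℤ)
    (h : S.cov pos tgt ps = true) (x : ℝ) (h1 : (pos : ℝ) < x) (h2 : x ≤ tgt) :
    BB (x / 2 ^ 20) ≤ chord S.n1 S.n2 S.M1 S.M2 (x / 2 ^ 20) := by
  induction ps generalizing pos with
  | nil =>
    simp only [Sl.cov, decide_eq_true_eq] at h
    have : (tgt : ℝ) ≤ pos := by exact_mod_cast h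
    linarith
  | cons P ps ih =>
    simp only [Sl.cov, Bool.and_eq_true, decide_eq_true_eq] at h
    obtain ⟨⟨⟨⟨⟨a1, a2⟩, a3⟩, a4⟩, a5⟩, a6⟩ := h
    rcases lt_or_ge ((P.L0 : ℝ) + P.L1) x with hx | hx
    · refine ih _ a6 ?_
      push_cast
      exact hx
    · have b1 : (P.L0 - P.L1 : ℝ) ≤ pos := by exact_mod_cast a1
      have b2 : (0 : ℝ) < P.L1 := by exact_mod_cast a2
      have ht : |(x - P.L0) / P.L1| ≤ 1 := by
        rw [abs_le]
        constructor
        · rw [le_div_iff₀ b2]; linarith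
        · rw [div_le_one b2]; linarith
      set t := (x - P.L0) / P.L1 with htdef
      have e : lv P t = x / 2 ^ 20 := by
        rw [lv, htdef]
        field_simp
        ring
      obtain ⟨_, _, h3⟩ := P.sound a3 ht
      rw [e] at h3
      refine h3.trans ?_
      have c1 := cmp_real hn a4
      have c2 := cmp_real hn a5
      obtain ⟨t1, t2⟩ := abs_le.1 ht
      -- both sides are affine in `t`
      have e1 : rv P t = (1 - t) / 2 * (((P.r0 - P.r1 : ℤ) : ℝ) / 2 ^ 26) +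
          (1 + t) / 2 * (((P.r0 + P.r1 : ℤ) : ℝ) / 2 ^ 26) := by
        rw [rv]; push_cast; ring
      have hx' : x = P.L0 + P.L1 * t := by
        rw [htdef]; field_simp; ring
      have hn' : (S.n2 - S.n1 : ℝ) ≠ 0 := by
        have : (S.n1 : ℝ) < S.n2 := by exact_mod_cast hn
        linarith
      have e2 : chord S.n1 S.n2 S.M1 S.M2 (x / 2 ^ 20) =
          (1 - t) / 2 * chord S.n1 S.n2 S.M1 S.M2 (((P.L0 - P.L1 : ℤ) : ℝ) / 2 ^ 20) +
          (1 + t) / 2 * chord S.n1 S.n2 S.M1 S.M2 (((P.L0 + P.L1 : ℤ) : ℝ) / 2 ^ 20) := by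
        rw [hx']
        simp only [chord]
        push_cast
        field_simp
        ring
      rw [e1, e2]
      exact add_le_add (mul_le_mul_of_nonneg_left c1 (by linarith))
        (mul_le_mul_of_nonneg_left c2 (by linarith))

end ChkAux

/-- Soundness of a slice. -/
theorem Sl.sound (S : Sl) (h : S.chk = true) {l : ℝ} (h1 : (S.n1 : ℝ) / 1024 < l)
    (h2 : l ≤ S.n2 / 1024) : BB l ≤ chord S.n1 S.n2 S.M1 S.M2 l := by
  simp only [Sl.chk, Bool.and_eq_true, decide_eq_true_eq] at h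
  have h3 := cov_sound h.1 S.ps (1024 * S.n1) (1024 * S.n2) h.2 (2 ^ 20 * l)
    (by
      push_cast
      rw [div_lt_iff₀ (by norm_num)] at h1
      linarith)
    (by
      push_cast
      rw [le_div_iff₀ (by norm_num)] at h2
      linarith)
  have e : (2 : ℝ) ^ 20 * l / 2 ^ 20 = l := by field_simp
  rw [e] at h3
  exact h3

end Pool.Agent.BMM
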