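import Pool.Agent.Lib.BMM.Data
import Pool.Agent.Lib.P187f6b.Threshold

/-!
# The upper bound of the best constant by a piecewise affine function (PROJECT BOHR, WP-M)

`RR l` interpolates the table `R(n / 1024) = M / 2 ^ 24` (bohr_R_v3_FINAL.txt) between the nodes.
-/

set_option autoImplicit false

open Pool.Agent.P187f6b

namespace Pool.Agent.BMM

/-- the piecewise affine function of the table -/
noncomputable def RR (l : ℝ) : ℝ :=
  if l ≤ 26 / 1024 then chord 0 26 11863619 11713037 l else
  if l ≤ 51 / 1024 then chord 26 51 11713037 11568397 l else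
  if l ≤ 77 / 1024 then chord 51 77 11568397 11418297 l else
  if l ≤ 102 / 1024 then chord 77 102 11418297 11274427 l else
  if l ≤ 128 / 1024 then chord 102 128 11274427 11125386 l else
  if l ≤ 154 / 1024 then chord 128 154 11125386 10976978 l else
  if l ≤ 179 / 1024 then chord 154 179 10976978 10834818 l else
  if l ≤ 205 / 1024 then chord 179 205 10834818 10687355 l else
  if l ≤ 230 / 1024 then chord 205 230 10687355 10545629 l else
  if l ≤ 256 / 1024 then chord 230 256 10545629 10397833 l else
  if l ≤ 282 / 1024 then chord 256 282 10397833 10249024 l else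
  if l ≤ 307 / 1024 then chord 282 307 10249024 10103747 l else
  if l ≤ 323 / 1024 then chord 307 323 10103747 10009022 l else
  if l ≤ 338 / 1024 then chord 323 338 10009022 9918717 l else
  if l ≤ 353 / 1024 then chord 338 353 9918717 9826159 l else
  if l ≤ 369 / 1024 then chord 353 369 9826159 9721984 l else
  if l ≤ 376 / 1024 then chord 369 376 9721984 9673686 l else
  chord 376 377 9673686 9662805 l

theorem RR_0 {l : ℝ} (h1 : 0 / 1024 < l) (h2 : l ≤ 26 / 1024) :
    RR l = chord 0 26 11863619 11713037 l := by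
  unfold RR
  rw [if_pos h2]

theorem RR_1 {l : ℝ} (h1 : 26 / 1024 < l) (h2 : l ≤ 51 / 1024) :
    RR l = chord 26 51 11713037 11568397 l := by
  unfold RR
  rw [if_neg (by intro h; linarith)]
  rw [if_pos h2]

theorem RR_2 {l : ℝ} (h1 : 51 / 1024 < l) (h2 : l ≤ 77 / 1024) :
    RR l = chord 51 77 11568397 11418297 l := by
  unfold RR
  rw [if_neg (by intro h; linarith)]
  rw [if_neg (by intro h; linarith)]
  rw [if_pos h2]

theorem RR_3 {l : ℝ} (h1 : 77 / 1024 < l) (h2 : l ≤ 102 / 1024) :
    RR l = chord 77 102 11418297 11274427 l := by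
  unfold RR
  rw [if_neg (by intro h; linarith)]
  rw [if_neg (by intro h; linarith)]
  rw [if_neg (by intro h; linarith)]
  rw [if_pos h2]

theorem RR_4 {l : ℝ} (h1 : 102 / 1024 < l) (h2 : l ≤ 128 / 1024) :
    RR l = chord 102 128 11274427 11125386 l := by
  unfold RR
  rw [if_neg (by intro h; linarith)]
  rw [if_neg (by intro h; linarith)]
  rw [if_neg (by intro h; linarith)]
  rw [if_neg (by intro h; linarith)]
  rw [if_pos h2]

theorem RR_5 {l : ℝ} (h1 : 128 / 1024 < l) (h2 : l ≤ 154 / 1024) :
    RR l = chord 128 154 11125386 10976978 l := by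
  unfold RR
  rw [if_neg (by intro h; linarith)]
  rw [if_neg (by intro h; linarith)]
  rw [if_neg (by intro h; linarith)]
  rw [if_neg (by intro h; linarith)]
  rw [if_neg (by intro h; linarith)]
  rw [if_pos h2]

theorem RR_6 {l : ℝ} (h1 : 154 / 1024 < l) (h2 : l ≤ 179 / 1024) :
    RR l = chord 154 179 10976978 10834818 l := by
  unfold RR
  rw [if_neg (by intro h; linarith)]
  rw [if_neg (by intro h; linarith)]
  rw [if_neg (by intro h; linarith)]
  rw [if_neg (by intro h; linarith)]
  rw [if_neg (by intro h; linarith)]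
  rw [if_neg (by intro h; linarith)]
  rw [if_pos h2]

theorem RR_7 {l : ℝ} (h1 : 179 / 1024 < l) (h2 : l ≤ 205 / 1024) :
    RR l = chord 179 205 10834818 10687355 l := by
  unfold RR
  rw [if_neg (by intro h; linarith)]
  rw [if_neg (by intro h; linarith)]
  rw [if_neg (by intro h; linarith)]
  rw [if_neg (by intro h; linarith)]
  rw [if_neg (by intro h; linarith)]
  rw [if_neg (by intro h; linarith)]
  rw [if_neg (by intro h; linarith)]
  rw [if_pos h2]

theorem RR_8 {l : ℝ} (h1 : 205 / 1024 < l) (h2 : l ≤ 230 / 1024) :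
    RR l = chord 205 230 10687355 10545629 l := by
  unfold RR
  rw [if_neg (by intro h; linarith)]
  rw [if_neg (by intro h; linarith)]
  rw [if_neg (by intro h; linarith)]
  rw [if_neg (by intro h; linarith)]
  rw [if_neg (by intro h; linarith)]
  rw [if_neg (by intro h; linarith)]
  rw [if_neg (by intro h; linarith)]
  rw [if_neg (by intro h; linarith)]
  rw [if_pos h2]

theorem RR_9 {l : ℝ} (h1 : 230 / 1024 < l) (h2 : l ≤ 256 / 1024) :
    RR l = chord 230 256 10545629 10397833 l := by
  unfold RR
  rw [if_neg (by intro h; linarith)]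
  rw [if_neg (by intro h; linarith)]
  rw [if_neg (by intro h; linarith)]
  rw [if_neg (by intro h; linarith)]
  rw [if_neg (by intro h; linarith)]
  rw [if_neg (by intro h; linarith)]
  rw [if_neg (by intro h; linarith)]
  rw [if_neg (by intro h; linarith)]
  rw [if_neg (by intro h; linarith)]
  rw [if_pos h2]

theorem RR_10 {l : ℝ} (h1 : 256 / 1024 < l) (h2 : l ≤ 282 / 1024) :
    RR l = chord 256 282 10397833 10249024 l := by
  unfold RR
  rw [if_neg (by intro h; linarith)]
  rw [if_neg (by intro h; linarith)]
  rw [if_neg (by intro h; linarith)]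
  rw [if_neg (by intro h; linarith)]
  rw [if_neg (by intro h; linarith)]
  rw [if_neg (by intro h; linarith)]
  rw [if_neg (by intro h; linarith)]
  rw [if_neg (by intro h; linarith)]
  rw [if_neg (by intro h; linarith)]
  rw [if_neg (by intro h; linarith)]
  rw [if_pos h2]

theorem RR_11 {l : ℝ} (h1 : 282 / 1024 < l) (h2 : l ≤ 307 / 1024) :
    RR l = chord 282 307 10249024 10103747 l := by
  unfold RR
  rw [if_neg (by intro h; linarith)]
  rw [if_neg (by intro h; linarith)]
  rw [if_neg (by intro h; linarith)]
  rw [if_neg (by intro h; linarith)]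
  rw [if_neg (by intro h; linarith)]
  rw [if_neg (by intro h; linarith)]
  rw [if_neg (by intro h; linarith)]
  rw [if_neg (by intro h; linarith)]
  rw [if_neg (by intro h; linarith)]
  rw [if_neg (by intro h; linarith)]
  rw [if_neg (by intro h; linarith)]
  rw [if_pos h2]

theorem RR_12 {l : ℝ} (h1 : 307 / 1024 < l) (h2 : l ≤ 323 / 1024) :
    RR l = chord 307 323 10103747 10009022 l := by
  unfold RR
  rw [if_neg (by intro h; linarith)]
  rw [if_neg (by intro h; linarith)]
  rw [if_neg (by intro h; linarith)]
  rw [if_neg (by intro h; linarith)]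
  rw [if_neg (by intro h; linarith)]
  rw [if_neg (by intro h; linarith)]
  rw [if_neg (by intro h; linarith)]
  rw [if_neg (by intro h; linarith)]
  rw [if_neg (by intro h; linarith)]
  rw [if_neg (by intro h; linarith)]
  rw [if_neg (by intro h; linarith)]
  rw [if_neg (by intro h; linarith)]
  rw [if_pos h2]

theorem RR_13 {l : ℝ} (h1 : 323 / 1024 < l) (h2 : l ≤ 338 / 1024) :
    RR l = chord 323 338 10009022 9918717 l := by
  unfold RR
  rw [if_neg (by intro h; linarith)]
  rw [if_neg (by intro h; linarith)]
  rw [if_neg (by intro h; linarith)]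
  rw [if_neg (by intro h; linarith)]
  rw [if_neg (by intro h; linarith)]
  rw [if_neg (by intro h; linarith)]
  rw [if_neg (by intro h; linarith)]
  rw [if_neg (by intro h; linarith)]
  rw [if_neg (by intro h; linarith)]
  rw [if_neg (by intro h; linarith)]
  rw [if_neg (by intro h; linarith)]
  rw [if_neg (by intro h; linarith)]
  rw [if_neg (by intro h; linarith)]
  rw [if_pos h2]

theorem RR_14 {l : ℝ} (h1 : 338 / 1024 < l) (h2 : l ≤ 353 / 1024) :
    RR l = chord 338 353 9918717 9826159 l := by
  unfold RR
  rw [if_neg (by intro h; linarith)]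
  rw [if_neg (by intro h; linarith)]
  rw [if_neg (by intro h; linarith)]
  rw [if_neg (by intro h; linarith)]
  rw [if_neg (by intro h; linarith)]
  rw [if_neg (by intro h; linarith)]
  rw [if_neg (by intro h; linarith)]
  rw [if_neg (by intro h; linarith)]
  rw [if_neg (by intro h; linarith)]
  rw [if_neg (by intro h; linarith)]
  rw [if_neg (by intro h; linarith)]
  rw [if_neg (by intro h; linarith)]
  rw [if_neg (by intro h; linarith)]
  rw [if_neg (by intro h; linarith)]
  rw [if_pos h2]

theorem RR_15 {l : ℝ} (h1 : 353 / 1024 < l) (h2 : l ≤ 369 / 1024) :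
    RR l = chord 353 369 9826159 9721984 l := by
  unfold RR
  rw [if_neg (by intro h; linarith)]
  rw [if_neg (by intro h; linarith)]
  rw [if_neg (by intro h; linarith)]
  rw [if_neg (by intro h; linarith)]
  rw [if_neg (by intro h; linarith)]
  rw [if_neg (by intro h; linarith)]
  rw [if_neg (by intro h; linarith)]
  rw [if_neg (by intro h; linarith)]
  rw [if_neg (by intro h; linarith)]
  rw [if_neg (by intro h; linarith)]
  rw [if_neg (by intro h; linarith)]
  rw [if_neg (by intro h; linarith)]
  rw [if_neg (by intro h; linarith)]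
  rw [if_neg (by intro h; linarith)]
  rw [if_neg (by intro h; linarith)]
  rw [if_pos h2]

theorem RR_16 {l : ℝ} (h1 : 369 / 1024 < l) (h2 : l ≤ 376 / 1024) :
    RR l = chord 369 376 9721984 9673686 l := by
  unfold RR
  rw [if_neg (by intro h; linarith)]
  rw [if_neg (by intro h; linarith)]
  rw [if_neg (by intro h; linarith)]
  rw [if_neg (by intro h; linarith)]
  rw [if_neg (by intro h; linarith)]
  rw [if_neg (by intro h; linarith)]
  rw [if_neg (by intro h; linarith)]
  rw [if_neg (by intro h; linarith)]
  rw [if_neg (by intro h; linarith)]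
  rw [if_neg (by intro h; linarith)]
  rw [if_neg (by intro h; linarith)]
  rw [if_neg (by intro h; linarith)]
  rw [if_neg (by intro h; linarith)]
  rw [if_neg (by intro h; linarith)]
  rw [if_neg (by intro h; linarith)]
  rw [if_neg (by intro h; linarith)]
  rw [if_pos h2]

theorem RR_17 {l : ℝ} (h1 : 376 / 1024 < l) (h2 : l ≤ 377 / 1024) :
    RR l = chord 376 377 9673686 9662805 l := by
  unfold RR
  rw [if_neg (by intro h; linarith)]
  rw [if_neg (by intro h; linarith)]
  rw [if_neg (by intro h; linarith)]
  rw [if_neg (by intro h; linarith)]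
  rw [if_neg (by intro h; linarith)]
  rw [if_neg (by intro h; linarith)]
  rw [if_neg (by intro h; linarith)]
  rw [if_neg (by intro h; linarith)]
  rw [if_neg (by intro h; linarith)]
  rw [if_neg (by intro h; linarith)]
  rw [if_neg (by intro h; linarith)]
  rw [if_neg (by intro h; linarith)]
  rw [if_neg (by intro h; linarith)]
  rw [if_neg (by intro h; linarith)]
  rw [if_neg (by intro h; linarith)]
  rw [if_neg (by intro h; linarith)]
  rw [if_neg (by intro h; linarith)]

theorem BB_le_0 {l : ℝ} (h1 : 0 / 1024 < l) (h2 : l ≤ 26 / 1024) :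
    BB l ≤ chord 0 26 11863619 11713037 l := by
  have := sl0.sound sl0_chk (l := l) (by simpa [sl0] using h1) (by simpa [sl0] using h2)
  simpa [sl0] using this

theorem BB_le_1 {l : ℝ} (h1 : 26 / 1024 < l) (h2 : l ≤ 51 / 1024) :
    BB l ≤ chord 26 51 11713037 11568397 l := by
  have := sl1.sound sl1_chk (l := l) (by simpa [sl1] using h1) (by simpa [sl1] using h2)
  simpa [sl1] using this

theorem BB_le_2 {l : ℝ} (h1 : 51 / 1024 < l) (h2 : l ≤ 77 / 1024) :
    BB l ≤ chord 51 77 11568397 11418297 l := by
  have := sl2.sound sl2_chk (l := l) (by simpa [sl2] using h1) (by simpa [sl2] using h2)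
  simpa [sl2] using this

theorem BB_le_3 {l : ℝ} (h1 : 77 / 1024 < l) (h2 : l ≤ 102 / 1024) :
    BB l ≤ chord 77 102 11418297 11274427 l := by
  have := sl3.sound sl3_chk (l := l) (by simpa [sl3] using h1) (by simpa [sl3] using h2)
  simpa [sl3] using this

theorem BB_le_4 {l : ℝ} (h1 : 102 / 1024 < l) (h2 : l ≤ 128 / 1024) :
    BB l ≤ chord 102 128 11274427 11125386 l := by
  have := sl4.sound sl4_chk (l := l) (by simpa [sl4] using h1) (by simpa [sl4] using h2)
  simpa [sl4] using this

theorem BB_le_5 {l : ℝ} (h1 : 128 / 1024 < l) (h2 : l ≤ 154 / 1024) :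
    BB l ≤ chord 128 154 11125386 10976978 l := by
  have := sl5.sound sl5_chk (l := l) (by simpa [sl5] using h1) (by simpa [sl5] using h2)
  simpa [sl5] using this

theorem BB_le_6 {l : ℝ} (h1 : 154 / 1024 < l) (h2 : l ≤ 179 / 1024) :
    BB l ≤ chord 154 179 10976978 10834818 l := by
  have := sl6.sound sl6_chk (l := l) (by simpa [sl6] using h1) (by simpa [sl6] using h2)
  simpa [sl6] using this

theorem BB_le_7 {l : ℝ} (h1 : 179 / 1024 < l) (h2 : l ≤ 205 / 1024) :
    BB l ≤ chord 179 205 10834818 10687355 l := by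
  have := sl7.sound sl7_chk (l := l) (by simpa [sl7] using h1) (by simpa [sl7] using h2)
  simpa [sl7] using this

theorem BB_le_8 {l : ℝ} (h1 : 205 / 1024 < l) (h2 : l ≤ 230 / 1024) :
    BB l ≤ chord 205 230 10687355 10545629 l := by
  have := sl8.sound sl8_chk (l := l) (by simpa [sl8] using h1) (by simpa [sl8] using h2)
  simpa [sl8] using this

theorem BB_le_9 {l : ℝ} (h1 : 230 / 1024 < l) (h2 : l ≤ 256 / 1024) :
    BB l ≤ chord 230 256 10545629 10397833 l := by
  have := sl9.sound sl9_chk (l := l) (by simpa [sl9] using h1) (by simpa [sl9] using h2)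
  simpa [sl9] using this

theorem BB_le_10 {l : ℝ} (h1 : 256 / 1024 < l) (h2 : l ≤ 282 / 1024) :
    BB l ≤ chord 256 282 10397833 10249024 l := by
  have := sl10.sound sl10_chk (l := l) (by simpa [sl10] using h1) (by simpa [sl10] using h2)
  simpa [sl10] using this

theorem BB_le_11 {l : ℝ} (h1 : 282 / 1024 < l) (h2 : l ≤ 307 / 1024) :
    BB l ≤ chord 282 307 10249024 10103747 l := by
  have := sl11.sound sl11_chk (l := l) (by simpa [sl11] using h1) (by simpa [sl11] using h2)
  simpa [sl11] using this

theorem BB_le_12 {l : ℝ} (h1 : 307 / 1024 < l) (h2 : l ≤ 323 / 1024) :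
    BB l ≤ chord 307 323 10103747 10009022 l := by
  have := sl12.sound sl12_chk (l := l) (by simpa [sl12] using h1) (by simpa [sl12] using h2)
  simpa [sl12] using this

theorem BB_le_13 {l : ℝ} (h1 : 323 / 1024 < l) (h2 : l ≤ 338 / 1024) :
    BB l ≤ chord 323 338 10009022 9918717 l := by
  have := sl13.sound sl13_chk (l := l) (by simpa [sl13] using h1) (by simpa [sl13] using h2)
  simpa [sl13] using this

theorem BB_le_14 {l : ℝ} (h1 : 338 / 1024 < l) (h2 : l ≤ 353 / 1024) :
    BB l ≤ chord 338 353 9918717 9826159 l := by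
  have := sl14.sound sl14_chk (l := l) (by simpa [sl14] using h1) (by simpa [sl14] using h2)
  simpa [sl14] using this

theorem BB_le_15 {l : ℝ} (h1 : 353 / 1024 < l) (h2 : l ≤ 369 / 1024) :
    BB l ≤ chord 353 369 9826159 9721984 l := by
  have := sl15.sound sl15_chk (l := l) (by simpa [sl15] using h1) (by simpa [sl15] using h2)
  simpa [sl15] using this

theorem BB_le_16 {l : ℝ} (h1 : 369 / 1024 < l) (h2 : l ≤ 376 / 1024) :
    BB l ≤ chord 369 376 9721984 9673686 l := by
  have := sl16.sound sl16_chk (l := l) (by simpa [sl16] using h1) (by simpa [sl16] using h2)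
  simpa [sl16] using this

theorem BB_le_17 {l : ℝ} (h1 : 376 / 1024 < l) (h2 : l ≤ 377 / 1024) :
    BB l ≤ chord 376 377 9673686 9662805 l := by
  refine (BB_le (by linarith) (by linarith)).trans ?_
  rw [div_le_iff₀ (by linarith), chord]
  nlinarith [mul_nonneg (sub_nonneg.2 h1.le) (sub_nonneg.2 h2)]

/-- The upper bound for the best constant. -/
theorem BB_le_RR {l : ℝ} (hpos : 0 < l) (hend : l ≤ 377 / 1024) : BB l ≤ RR l := by
  rcases le_or_gt l (26 / 1024) with h | g0
  · rw [RR_0 (by linarith) h]
    exact BB_le_0 (by linarith) h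
  rcases le_or_gt l (51 / 1024) with h | g1
  · rw [RR_1 (by linarith) h]
    exact BB_le_1 (by linarith) h
  rcases le_or_gt l (77 / 1024) with h | g2
  · rw [RR_2 (by linarith) h]
    exact BB_le_2 (by linarith) h
  rcases le_or_gt l (102 / 1024) with h | g3
  · rw [RR_3 (by linarith) h]
    exact BB_le_3 (by linarith) h
  rcases le_or_gt l (128 / 1024) with h | g4
  · rw [RR_4 (by linarith) h]
    exact BB_le_4 (by linarith) h
  rcases le_or_gt l (154 / 1024) with h | g5
  · rw [RR_5 (by linarith) h]
    exact BB_le_5 (by linarith) h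
  rcases le_or_gt l (179 / 1024) with h | g6
  · rw [RR_6 (by linarith) h]
    exact BB_le_6 (by linarith) h
  rcases le_or_gt l (205 / 1024) with h | g7
  · rw [RR_7 (by linarith) h]
    exact BB_le_7 (by linarith) h
  rcases le_or_gt l (230 / 1024) with h | g8
  · rw [RR_8 (by linarith) h]
    exact BB_le_8 (by linarith) h
  rcases le_or_gt l (256 / 1024) with h | g9
  · rw [RR_9 (by linarith) h]
    exact BB_le_9 (by linarith) h
  rcases le_or_gt l (282 / 1024) with h | g10
  · rw [RR_10 (by linarith) h]
    exact BB_le_10 (by linarith) h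
  rcases le_or_gt l (307 / 1024) with h | g11
  · rw [RR_11 (by linarith) h]
    exact BB_le_11 (by linarith) h
  rcases le_or_gt l (323 / 1024) with h | g12
  · rw [RR_12 (by linarith) h]
    exact BB_le_12 (by linarith) h
  rcases le_or_gt l (338 / 1024) with h | g13
  · rw [RR_13 (by linarith) h]
    exact BB_le_13 (by linarith) h
  rcases le_or_gt l (353 / 1024) with h | g14
  · rw [RR_14 (by linarith) h]
    exact BB_le_14 (by linarith) h
  rcases le_or_gt l (369 / 1024) with h | g15
  · rw [RR_15 (by linarith) h]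
    exact BB_le_15 (by linarith) h
  rcases le_or_gt l (376 / 1024) with h | g16
  · rw [RR_16 (by linarith) h]
    exact BB_le_16 (by linarith) h
  rw [RR_17 (by linarith) hend]
  exact BB_le_17 (by linarith) hend

/-- Value at the end of the range. -/
theorem RR_end : 1 / (1 + 2 * (3672 / 10000)) ≤ RR (3672 / 10000) := by
  rw [RR_17 (by norm_num) (by norm_num), chord]
  norm_num

end Pool.Agent.BMM
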