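import Pool.Agent.Lib.P187s.Family
import Pool.Agent.Lib.P187o.Upper
import Pool.Agent.Lib.P187f6b.Core

/-!
# Lower bounds for the majorant of explicit members (PROJECT BOHR, package BMM)

The members are `GG l a η` with `0 ≤ a < 1` and `‖η‖ ≤ 1` (not necessarily of modulus one). Their
coefficients are `(1 - l ^ 2) dd n` with the recurrence `dd (n + 2) = A dd (n + 1) + B dd n`,
`A = a (1 - l η)`, `B = l η`.
-/

set_option autoImplicit false

open Complex Metric Set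
open scoped ComplexConjugate
open Pool.Agent.P187f6b Pool.Agent.P187s

namespace Pool.Agent.BMM

/-- the recurrence -/
noncomputable def dd (A B x y : ℂ) : ℕ → ℂ
  | 0 => x
  | n + 1 => dd A B y (A * y + B * x) n

namespace MemAux

variable {l a : ℝ} {η z : ℂ}

lemma norm_psi' (hη : ‖η‖ ≤ 1) (h0 : 0 ≤ a) (h1 : a < 1) (hz : ‖z‖ < 1) : ‖η * QA a z‖ < 1 := by
  rw [norm_mul]
  have h2 := norm_QA_lt h0 h1 hz
  have h3 : ‖η‖ * ‖QA a z‖ ≤ 1 * ‖QA a z‖ := mul_le_mul_of_nonneg_right hη (norm_nonneg _)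
  linarith

lemma diff_GG' (hl : 0 ≤ l) (hl1 : l < 1) (hη : ‖η‖ ≤ 1) (h0 : 0 ≤ a) (h1 : a < 1) :
    DifferentiableOn ℂ (GG l a η) (ball 0 1) := by
  have hQ := diff_QA h0 h1
  have e : GG l a η = fun z => (l + η * QA a z) / (1 + l * (η * QA a z)) := rfl
  rw [e]
  refine DifferentiableOn.div ?_ ?_ (fun z hz => ?_)
  · exact (differentiableOn_const _).add ((differentiableOn_const _).mul hQ)
  · exact (differentiableOn_const _).add ((differentiableOn_const _).mul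
      ((differentiableOn_const _).mul hQ))
  · have := den2_lower hl (norm_psi' hη h0 h1 (z := z) (by simpa using hz))
    exact norm_pos_iff.1 (by linarith)

lemma GG_mem'' (hl : 0 ≤ l) (hl1 : l < 1) (hη : ‖η‖ ≤ 1) (h0 : 0 ≤ a) (h1 : a < 1) :
    GG l a η ∈ FClass l := by
  refine ⟨diff_GG' hl hl1 hη h0 h1, fun z hz => ?_, ?_⟩
  · have hz' : ‖z‖ < 1 := by simpa using hz
    have hw := norm_psi' hη h0 h1 hz'
    have hd := den2_lower hl hw
    rw [GG_eq]
    set w := η * QA a z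
    rw [norm_div, div_lt_one (by linarith)]
    rw [← abs_norm, ← abs_norm (1 + (l : ℂ) * w), ← sq_lt_sq, ← Complex.normSq_eq_norm_sq,
      ← Complex.normSq_eq_norm_sq, Complex.normSq_apply, Complex.normSq_apply]
    have h2 : ‖w‖ ^ 2 < 1 := by
      have := norm_nonneg w
      nlinarith
    rw [← Complex.normSq_eq_norm_sq, Complex.normSq_apply] at h2
    have h5 : 0 < (1 - l ^ 2) * (1 - (w.re * w.re + w.im * w.im)) :=
      mul_pos (by nlinarith) (by linarith)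
    simp
    nlinarith [h5]
  · simp [GG]

/-- the quotient -/
noncomputable def kk (l a : ℝ) (η : ℂ) (z : ℂ) : ℂ :=
  η * (a - z) / ((1 - a * z) * (1 + l * (η * QA a z)))

lemma den_ne (hl : 0 ≤ l) (hl1 : l < 1) (hη : ‖η‖ ≤ 1) (h0 : 0 ≤ a) (h1 : a < 1) (hz : ‖z‖ < 1) :
    (1 - (a : ℂ) * z) * (1 + l * (η * QA a z)) ≠ 0 := by
  refine mul_ne_zero (den_ne' h0 h1 hz) ?_
  have := den2_lower hl (norm_psi' hη h0 h1 hz)
  exact norm_pos_iff.1 (by linarith)

lemma diff_kk (hl : 0 ≤ l) (hl1 : l < 1) (hη : ‖η‖ ≤ 1) (h0 : 0 ≤ a) (h1 : a < 1) :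
    DifferentiableOn ℂ (kk l a η) (ball 0 1) := by
  have hQ := diff_QA h0 h1
  unfold kk
  refine DifferentiableOn.div (by fun_prop) ?_ (fun z hz => ?_)
  · refine DifferentiableOn.mul (by fun_prop) ?_
    exact (differentiableOn_const _).add ((differentiableOn_const _).mul
      ((differentiableOn_const _).mul hQ))
  · exact den_ne hl hl1 hη h0 h1 (by simpa using hz)

lemma GG_kk (hl : 0 ≤ l) (hl1 : l < 1) (hη : ‖η‖ ≤ 1) (h0 : 0 ≤ a) (h1 : a < 1) (hz : ‖z‖ < 1) :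
    GG l a η z = l + ((1 : ℂ) - (l : ℂ) ^ 2) * z * kk l a η z := by
  have e1 := den_ne' h0 h1 hz
  have e2 : (1 : ℂ) + l * (η * QA a z) ≠ 0 := by
    have := den2_lower hl (norm_psi' hη h0 h1 hz)
    exact norm_pos_iff.1 (by linarith)
  rw [GG_eq, kk]
  have e3 : η * (a - z) * z = η * QA a z * (1 - a * z) := by
    unfold QA
    field_simp
  have e4 : z * (η * (a - z) / ((1 - (a : ℂ) * z) * (1 + l * (η * QA a z)))) =
      η * QA a z / (1 + l * (η * QA a z)) := by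
    rw [mul_div_assoc', div_eq_div_iff (mul_ne_zero e1 e2) e2]
    linear_combination (1 + (l : ℂ) * (η * QA a z)) * e3
  rw [mul_assoc, e4]
  generalize η * QA a z = w at e2
  field_simp
  ring

lemma kk_eq (hl : 0 ≤ l) (hl1 : l < 1) (hη : ‖η‖ ≤ 1) (h0 : 0 ≤ a) (h1 : a < 1) (hz : ‖z‖ < 1) :
    kk l a η z = η * a + 1 * z *
      ((a * (1 - l * η) * kk l a η z + -η) + l * η * z * kk l a η z) := by
  have e1 := den_ne' h0 h1 hz
  have e2 := den_ne hl hl1 hη h0 h1 hz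
  have e3 : (1 - (a : ℂ) * z) * (1 + l * (η * QA a z)) =
      1 - a * (1 - l * η) * z - l * η * z ^ 2 := by
    unfold QA
    field_simp
    ring
  have e4 : kk l a η z * (1 - a * (1 - l * η) * z - l * η * z ^ 2) = η * (a - z) := by
    rw [← e3, kk, div_mul_cancel₀ _ e2]
  linear_combination e4

lemma tc_kk (hl : 0 ≤ l) (hl1 : l < 1) (hη : ‖η‖ ≤ 1) (h0 : 0 ≤ a) (h1 : a < 1) :
    tc (kk l a η) 0 = η * a ∧ tc (kk l a η) 1 = a * (1 - l * η) * (η * a) - η ∧
    ∀ n, tc (kk l a η) (n + 2) =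
      a * (1 - l * η) * tc (kk l a η) (n + 1) + l * η * tc (kk l a η) n := by
  have hk := diff_kk hl hl1 hη h0 h1 (η := η)
  set A : ℂ := a * (1 - l * η) with hA
  set B : ℂ := l * η with hB
  have hk1 : DifferentiableOn ℂ (fun z => A * kk l a η z + -η) (ball 0 1) :=
    ((differentiableOn_const _).mul hk).add (differentiableOn_const _)
  have hk2 : DifferentiableOn ℂ (fun z => B * z * kk l a η z) (ball 0 1) :=
    ((differentiableOn_const B).mul differentiableOn_id).mul hk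
  have hL : DifferentiableOn ℂ (fun z => (A * kk l a η z + -η) + B * z * kk l a η z)
      (ball 0 1) := hk1.add hk2
  have s1 : ∀ n, tc (kk l a η) (n + 1) =
      tc (fun z => (A * kk l a η z + -η) + B * z * kk l a η z) n := fun n => by
    rw [tc_shift (c := η * a) (k := 1) hL (fun z hz => kk_eq hl hl1 hη h0 h1 hz), one_mul]
  have s0 : tc (kk l a η) 0 = η * a := by
    rw [tc_zero, kk]
    simp [QA]
  have s2 : ∀ n, tc (fun z => A * kk l a η z + -η) (n + 1) = A * tc (kk l a η) (n + 1) := by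
    intro n
    rw [tc_shift (c := A * (η * a) + -η) (k := A) hL (fun z hz => by
      linear_combination A * kk_eq hl hl1 hη h0 h1 hz), s1]
  have s3 : ∀ n, tc (fun z => B * z * kk l a η z) (n + 1) = B * tc (kk l a η) n := fun n =>
    tc_shift (c := 0) (k := B) hk (fun z _ => by ring) n
  refine ⟨s0, ?_, fun n => ?_⟩
  · rw [s1, tc_zero]
    have : kk l a η 0 = η * a := (tc_zero _).symm.trans s0
    simp [this]
    ring
  · rw [s1, tc_add hk1 hk2, s2, s3]

lemma tc_GG (hl : 0 ≤ l) (hl1 : l < 1) (hη : ‖η‖ ≤ 1) (h0 : 0 ≤ a) (h1 : a < 1) (n : ℕ) :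
    tc (GG l a η) (n + 1) = ((1 : ℂ) - (l : ℂ) ^ 2) * tc (kk l a η) n :=
  tc_shift (c := l) (k := (1 : ℂ) - (l : ℂ) ^ 2) (diff_kk hl hl1 hη h0 h1)
    (fun z hz => GG_kk hl hl1 hη h0 h1 hz) n

lemma dd_step (A B x y : ℂ) (n : ℕ) :
    dd A B x y (n + 2) = A * dd A B x y (n + 1) + B * dd A B x y n := by
  induction n generalizing x y with
  | zero => simp [dd]
  | succ n ih => exact ih y (A * y + B * x)

lemma tc_kk_dd (hl : 0 ≤ l) (hl1 : l < 1) (hη : ‖η‖ ≤ 1) (h0 : 0 ≤ a) (h1 : a < 1) (n : ℕ) :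
    tc (kk l a η) n =
      dd (a * (1 - l * η)) (l * η) (η * a) (a * (1 - l * η) * (η * a) - η) n := by
  obtain ⟨e0, e1, e2⟩ := tc_kk hl hl1 hη h0 h1 (η := η)
  induction n using Nat.strong_induction_on with
  | _ n ih =>
    match n with
    | 0 => exact e0
    | 1 => exact e1
    | m + 2 =>
      rw [e2, dd_step, ih (m + 1) (by omega), ih m (by omega)]

theorem maj_def (l : ℝ) (g : ℂ → ℂ) (r : ℝ) :
    maj l g r = l + ∑' n : ℕ, ‖tc g (n + 1)‖ * r ^ (n + 1) := rfl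

theorem summ {l : ℝ} {f : ℂ → ℂ} (hf : f ∈ FClass l) {r : ℝ} (hr : 0 ≤ r) (hr1 : r < 1) :
    Summable fun n : ℕ => ‖tc f (n + 1)‖ * r ^ (n + 1) :=
  (summable_nat_add_iff (f := fun n : ℕ => ‖tc f n‖ * r ^ n) 1).2 (tc_summable hf.1 hr hr1)

theorem adm_zero {l : ℝ} (h1 : l < 1) :
    (0 : ℝ) ∈ {r : ℝ | 0 ≤ r ∧ r < 1 ∧ ∀ f ∈ FClass l, maj l f r ≤ 1} :=
  ⟨le_rfl, one_pos, fun f _ => by rw [maj_def]; simpa using h1.le⟩

/-- A larger radius where a member of the class has majorant at least one. -/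
lemma BB_le_of {f : ℂ → ℂ} (h1 : l < 1) (hf : f ∈ FClass l) {R : ℝ} (hR0 : 0 ≤ R)
    (h : 1 < maj l f R) : BB l ≤ R := by
  refine csSup_le ⟨0, adm_zero h1⟩ (fun r hr => ?_)
  by_contra hcon
  push Not at hcon
  have h2 := hr.2.2 _ hf
  have h3 := Pool.Agent.P187o.maj_mono hf hR0 hcon.le hr.2.1
  linarith

end MemAux

/-- the real functional -/
noncomputable def VV (A B : ℂ) (R : ℝ) : List ℂ → ℂ → ℂ → ℝ
  | [], _, _ => 0
  | s :: ss, x, y => (conj s * x).re + R * VV A B R ss y (A * y + B * x)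

namespace MemAux

lemma VV_le (A B : ℂ) {R : ℝ} (hR0 : 0 ≤ R) (s : List ℂ) (hs : ∀ c ∈ s, ‖c‖ ≤ 1) (x y : ℂ) :
    VV A B R s x y ≤ ∑ n ∈ Finset.range s.length, ‖dd A B x y n‖ * R ^ n := by
  induction s generalizing x y with
  | nil => simp [VV]
  | cons c ss ih =>
    rw [VV, List.length_cons, Finset.sum_range_succ']
    have h1 : (conj c * x).re ≤ ‖dd A B x y 0‖ * R ^ 0 := by
      rw [pow_zero, mul_one]
      have h2 := Complex.re_le_norm (conj c * x)
      rw [norm_mul, RCLike.norm_conj] at h2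
      have h3 : ‖c‖ * ‖x‖ ≤ 1 * ‖x‖ :=
        mul_le_mul_of_nonneg_right (hs c (by simp)) (norm_nonneg _)
      show _ ≤ ‖x‖
      linarith
    have h2 := ih (fun d hd => hs d (by simp [hd])) y (A * y + B * x)
    have h3 := mul_le_mul_of_nonneg_left h2 hR0
    rw [Finset.mul_sum] at h3
    have h4 : ∑ i ∈ Finset.range ss.length, R * (‖dd A B y (A * y + B * x) i‖ * R ^ i) =
        ∑ k ∈ Finset.range ss.length, ‖dd A B x y (k + 1)‖ * R ^ (k + 1) := by
      refine Finset.sum_congr rfl (fun i _ => ?_)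
      show R * (‖dd A B y (A * y + B * x) i‖ * R ^ i) =
        ‖dd A B y (A * y + B * x) i‖ * R ^ (i + 1)
      ring
    rw [h4] at h3
    linarith

end MemAux

open MemAux in
/-- The upper bound for the best constant from one member. -/
theorem BB_le_VV {l a : ℝ} {η : ℂ} (hl : 0 ≤ l) (hl1 : l < 1) (hη : ‖η‖ ≤ 1) (h0 : 0 ≤ a)
    (h1 : a < 1) {R : ℝ} (hR0 : 0 < R) (hR1 : R < 1) (s : List ℂ) (hs : ∀ c ∈ s, ‖c‖ ≤ 1)
    (h : 1 < (1 + l) * (R * VV (a * (1 - l * η)) (l * η) R s (η * a)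
      (a * (1 - l * η) * (η * a) - η))) : BB l ≤ R := by
  have hm := GG_mem'' hl hl1 hη h0 h1
  refine BB_le_of hl1 hm hR0.le ?_
  rw [MemAux.maj_def]
  have hS := MemAux.summ hm hR0.le hR1
  have hk : ∀ n, ‖tc (GG l a η) (n + 1)‖ * R ^ (n + 1) = (1 - l ^ 2) * R *
      (‖dd (a * (1 - l * η)) (l * η) (η * a) (a * (1 - l * η) * (η * a) - η) n‖ * R ^ n) := by
    intro n
    rw [tc_GG hl hl1 hη h0 h1, norm_mul, tc_kk_dd hl hl1 hη h0 h1]
    have e : ‖(1 : ℂ) - (l : ℂ) ^ 2‖ = 1 - l ^ 2 := by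
      have : (1 : ℂ) - (l : ℂ) ^ 2 = ((1 - l ^ 2 : ℝ) : ℂ) := by push_cast; ring
      rw [this, Complex.norm_real, Real.norm_eq_abs, abs_of_nonneg (by nlinarith)]
    rw [e]
    ring
  have h2 := hS.sum_le_tsum (Finset.range s.length) (fun n _ => by positivity)
  rw [Finset.sum_congr rfl (fun n _ => hk n), ← Finset.mul_sum] at h2
  have h3 := VV_le (a * (1 - l * η)) (l * η) hR0.le s hs (η * a)
    (a * (1 - l * η) * (η * a) - η)
  set V := VV (a * (1 - l * η)) (l * η) R s (η * a) (a * (1 - l * η) * (η * a) - η)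
  have hpos : 0 ≤ (1 - l ^ 2) * R := by
    have : 0 ≤ 1 - l ^ 2 := by nlinarith
    positivity
  have h4 := mul_le_mul_of_nonneg_left h3 hpos
  have h5 : (1 - l) * 1 < (1 - l) * ((1 + l) * (R * V)) :=
    mul_lt_mul_of_pos_left h (by linarith)
  have h6 : (1 - l) * ((1 + l) * (R * V)) = (1 - l ^ 2) * R * V := by ring
  rw [h6, mul_one] at h5
  linarith

end Pool.Agent.BMM
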