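import Pool.Agent.Lib.BMM.Chk

/-!
# Upper values of the best constant at `1/10`, `1/5`, `3/10` (PROJECT BOHR)
-/

set_option autoImplicit false

open Pool.Agent.P187f6b

namespace Pool.Agent.BMM

open ChkAux

/-- the piece for `1 / 10` -/
def pvA : Pc where
  L0 := 104858
  L1 := 1
  u := 785910
  v := 16758797
  al := 727
  r0 := 45087761
  r1 := 0
  s := [(49119, 1047423), (56423, -1047055), (-254151, -1017307), (-156468, -1036834),
      (-48261, -1047463), (44099, -1047646), (137220, -1039557), (229724, -1023100),
      (320307, -998454), (408313, -965809), (493050, -925423), (573837, -877621),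
      (650024, -822785), (721002, -761356), (786202, -693825), (845101, -620734),
      (897228, -542668), (942164, -460254), (979550, -374151), (1009086, -285049)]

theorem pvA_chk : pvA.chk = true := by decide +kernel

theorem BB_up_A : BB (1 / 10) ≤ 67186 / 100000 := by
  obtain ⟨_, _, h⟩ := pvA.sound pvA_chk (t := -4 / 10) (by rw [abs_le]; constructor <;> norm_num)
  have e1 : lv pvA (-4 / 10) = 1 / 10 := by rw [lv]; norm_num [pvA]
  have e2 : rv pvA (-4 / 10) ≤ 67186 / 100000 := by rw [rv]; norm_num [pvA]
  rw [e1] at h
  exact h.trans e2

/-- the piece for `1 / 5` -/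
def pvB : Pc where
  L0 := 209715
  L1 := 1
  u := 2733788
  v := 16552986
  al := 743
  r0 := 42753043
  r1 := 0
  s := [(170861, 1034560), (47131, -1047514), (-557096, -888342), (-389425, -973579),
      (-177620, -1033421), (-72360, -1046074), (63387, -1046656), (201839, -1028965),
      (332741, -994379), (458742, -942901), (577226, -875396), (685837, -793180),
      (782882, -697569), (866719, -590174), (935921, -472819), (989324, -347483),
      (1026026, -216279), (1045408, -81425), (1047141, 54802), (1031197, 190106)]

theorem pvB_chk : pvB.chk = true := by decide +kernel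

theorem BB_up_B : BB (1 / 5) ≤ 63707 / 100000 := by
  obtain ⟨_, _, h⟩ := pvB.sound pvB_chk (t := 1 / 5) (by rw [abs_le]; constructor <;> norm_num)
  have e1 : lv pvB (1 / 5) = 1 / 5 := by rw [lv]; norm_num [pvB]
  have e2 : rv pvB (1 / 5) ≤ 63707 / 100000 := by rw [rv]; norm_num [pvB]
  rw [e1] at h
  exact h.trans e2

/-- the piece for `3 / 10` -/
def pvC : Pc where
  L0 := 314573
  L1 := 1
  u := 6256170
  v := 15567122
  al := 790
  r0 := 40408931
  r1 := 0
  s := [(391010, 972943), (-46281, -1047552), (-894345, -547406), (-666693, -809337),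
      (-452590, -945870), (-454822, -944798), (-315859, -999870), (-199817, -1029359),
      (-93236, -1044420), (25044, -1048275), (140088, -1039174), (253015, -1017591),
      (363552, -983533), (469442, -937620), (569644, -880348), (662978, -812384),
      (748260, -734584), (824475, -647880), (890698, -553321), (946124, -452057)]

theorem pvC_chk : pvC.chk = true := by decide +kernel

theorem BB_up_C : BB (3 / 10) ≤ 60214 / 100000 := by
  obtain ⟨_, _, h⟩ := pvC.sound pvC_chk (t := -2 / 10) (by rw [abs_le]; constructor <;> norm_num)
  have e1 : lv pvC (-2 / 10) = 3 / 10 := by rw [lv]; norm_num [pvC]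
  have e2 : rv pvC (-2 / 10) ≤ 60214 / 100000 := by rw [rv]; norm_num [pvC]
  rw [e1] at h
  exact h.trans e2

end Pool.Agent.BMM
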